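import Mathlib

/-!
# Induced subgraphs of geodetic graphs (MP_619a4d_co): statements of the jobs
-/

set_option autoImplicit false

namespace Pool.Agent.K7.H25.GD

/-- two distinct nonadjacent vertices have at most one common neighbour -/
def Loose {V : Type} (G : SimpleGraph V) : Prop :=
  ∀ u v a b : V, u ≠ v → ¬ G.Adj u v → G.Adj u a → G.Adj v a → G.Adj u b → G.Adj v b → a = b

/-- two distinct nonadjacent vertices have exactly one common neighbour -/
def Two {V : Type} (G : SimpleGraph V) : Prop :=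
  Loose G ∧ ∀ u v : V, u ≠ v → ¬ G.Adj u v → ∃ a, G.Adj u a ∧ G.Adj v a

/-- no vertex is adjacent to all others -/
def NoDom {V : Type} (G : SimpleGraph V) : Prop := ∀ y : V, ∃ x, x ≠ y ∧ ¬ G.Adj y x

/-- the vertices `u`, `z` and their common neighbours -/
def line {V : Type} (G : SimpleGraph V) (u z : V) : Set V :=
  {x | x = u ∨ x = z ∨ (G.Adj u x ∧ G.Adj z x)}

/-- `C` is a maximal clique -/
def MaxClique {V : Type} (G : SimpleGraph V) (C : Set V) : Prop :=
  G.IsClique C ∧ ∀ x, (∀ c ∈ C, x ≠ c → G.Adj x c) → x ∈ C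

/-- JOB DEG -/
def StDeg : Prop := ∀ (V : Type) [Finite V] (G : SimpleGraph V), Two G →
  ∀ u v z : V, u ≠ v → ¬ G.Adj u v → G.Adj u z → G.Adj v z →
    (G.neighborSet u \ line G u z).ncard = (G.neighborSet v \ line G v z).ncard

/-- JOB NBR -/
def StNbr : Prop := ∀ (V : Type) [Finite V] (G : SimpleGraph V), Two G → NoDom G →
  ∀ z : V, ∃ u v : V, u ≠ v ∧ G.Adj z u ∧ G.Adj z v ∧ ¬ G.Adj u v

/-- JOB SIZE (may assume `StDeg`, `StNbr`) -/
def StSize : Prop := ∀ (V : Type) [Finite V] [Nonempty V] (G : SimpleGraph V), Two G → NoDom G →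
  ∃ s : ℕ, 3 ≤ s ∧ ∀ C : Set V, MaxClique G C → C.ncard = 2 ∨ C.ncard = s

/-- JOB WIND: a graph `H` with at most one common neighbour for nonadjacent pairs such that every
`G` with `Two G` that contains `H` has no dominating vertex and has a vertex in at least `n` maximal
cliques with at least `n` vertices -/
def StWind : Prop := ∀ n : ℕ, 3 ≤ n → ∃ (V : Type) (_ : Finite V) (H : SimpleGraph V), Loose H ∧
  ∀ (W : Type) [Finite W] (G : SimpleGraph W), Two G → Nonempty (H ↪g G) → NoDom G ∧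
    ∃ c : W, n ≤ {C : Set W | MaxClique G C ∧ c ∈ C ∧ n ≤ C.ncard}.ncard

end Pool.Agent.K7.H25.GD
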